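import Mathlib

set_option autoImplicit false

open Filter Topology

namespace Pool.Agent.Results.MP_25bc1d_an.Shortest

/-- The symmetric tent map. -/
noncomputable def tent (μ x : ℝ) : ℝ := 2 * μ * min x (1 - x)

/-- The pattern `π` of length `n` is realised by an orbit of `f`. -/
def Allow (f : ℝ → ℝ) {n : ℕ} (π : Fin n → ℕ) : Prop :=
  ∃ x ∈ Set.Icc (0 : ℝ) 1, ∀ i j : Fin n, π i < π j ↔ f^[i] x < f^[j] x

/-- The pattern `(n-1) n 1 2 ... (n-2)`. -/
def sigma (n : ℕ) (i : Fin n) : ℕ := if (i : ℕ) = 0 then n - 1 else if (i : ℕ) = 1 then n else i - 1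

noncomputable def g (s : ℝ) (b : Bool) (y : ℝ) : ℝ := if b then 1 - y / s else y / s

def sh (k : ℕ) (u : ℕ → Bool) : ℕ → Bool := fun i => u (k + i)

noncomputable def F (s : ℝ) : ℕ → (ℕ → Bool) → ℝ → ℝ
  | 0, _, y => y
  | k + 1, u, y => g s (u 0) (F s k (sh 1 u) y)

lemma sh_sh (a b : ℕ) (u : ℕ → Bool) : sh a (sh b u) = sh (b + a) u := by
  funext i; simp [sh, add_assoc]

lemma g_mem {s : ℝ} (hs : 1 < s) (b : Bool) {y : ℝ} (hy : y ∈ Set.Icc (0 : ℝ) 1) :
    g s b y ∈ Set.Icc (0 : ℝ) 1 := by
  have h0 : 0 ≤ y / s := div_nonneg hy.1 (by linarith)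
  have h1 : y / s ≤ 1 := (div_le_one (by linarith)).2 (by linarith [hy.2])
  cases b <;> simp [g, h0, h1]

lemma F_mem {s : ℝ} (hs : 1 < s) (k : ℕ) (u : ℕ → Bool) {y : ℝ} (hy : y ∈ Set.Icc (0 : ℝ) 1) :
    F s k u y ∈ Set.Icc (0 : ℝ) 1 := by
  induction k generalizing u with
  | zero => exact hy
  | succ k ih => exact g_mem hs _ (ih _)

lemma F_dist {s : ℝ} (hs : 1 < s) (k : ℕ) (u : ℕ → Bool) (y y' : ℝ) :
    |F s k u y - F s k u y'| = |y - y'| * (1 / s) ^ k := by
  induction k generalizing u with
  | zero => simp [F]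
  | succ k ih =>
    have : ∀ b a a', |g s b a - g s b a'| = |a - a'| * (1 / s) := fun b a a' => by
      have h0 : 0 < s := by linarith
      cases b
      · simp only [g, Bool.false_eq_true, if_false]
        rw [← sub_div, abs_div, abs_of_pos h0, mul_one_div]
      · simp only [g, if_true]
        rw [sub_sub_sub_cancel_left, ← sub_div, abs_div, abs_of_pos h0, mul_one_div, abs_sub_comm]
    rw [F, F, this, ih, pow_succ, mul_assoc]

lemma F_succ (s : ℝ) (k : ℕ) (u : ℕ → Bool) (y : ℝ) :
    F s (k + 1) u y = F s k u (g s (u k) y) := by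
  induction k generalizing u with
  | zero => simp [F]
  | succ k ih => rw [F, ih, F]; simp [sh, add_comm]

lemma F_congr (s : ℝ) (k : ℕ) {u v : ℕ → Bool} (h : ∀ i < k, u i = v i) (y : ℝ) :
    F s k u y = F s k v y := by
  induction k generalizing u v with
  | zero => rfl
  | succ k ih =>
    rw [F, F, h 0 (by omega), ih (u := sh 1 u) (v := sh 1 v) fun i hi => h (1 + i) (by omega)]

lemma F_L (s : ℝ) (k : ℕ) {u : ℕ → Bool} (h : ∀ i < k, u i = false) (y : ℝ) :
    F s k u y = y / s ^ k := by
  induction k generalizing u with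
  | zero => simp [F]
  | succ k ih =>
    rw [F, h 0 (by omega), ih (u := sh 1 u) fun i hi => h (1 + i) (by omega)]
    simp [g, pow_succ, div_div]

noncomputable def pt (s : ℝ) (u : ℕ → Bool) : ℝ := limUnder atTop fun k => F s k u 0

lemma pt_lim {s : ℝ} (hs : 1 < s) (u : ℕ → Bool) :
    Tendsto (fun k => F s k u 0) atTop (𝓝 (pt s u)) := by
  refine CauchySeq.tendsto_limUnder (cauchySeq_of_le_geometric (1 / s) 1
    ((div_lt_one (by linarith)).2 hs) fun k => ?_)
  rw [Real.dist_eq, F_succ, F_dist hs]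
  have := g_mem hs (u k) (y := 0) (by simp)
  refine mul_le_mul_of_nonneg_right ?_ (by positivity)
  rw [abs_le]; constructor <;> linarith [this.1, this.2]

lemma pt_mem {s : ℝ} (hs : 1 < s) (u : ℕ → Bool) : pt s u ∈ Set.Icc (0 : ℝ) 1 :=
  isClosed_Icc.mem_of_tendsto (pt_lim hs u) (.of_forall fun k => F_mem hs k u (by simp))

lemma pt_eq {s : ℝ} (hs : 1 < s) (u : ℕ → Bool) : pt s u = g s (u 0) (pt s (sh 1 u)) := by
  have h1 := (tendsto_add_atTop_iff_nat 1).2 (pt_lim hs u)
  have hc : Continuous (g s (u 0)) := by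
    unfold g; split_ifs <;> fun_prop
  exact tendsto_nhds_unique h1 ((hc.tendsto _).comp (pt_lim hs (sh 1 u)))

lemma pt_F {s : ℝ} (hs : 1 < s) (k : ℕ) (u : ℕ → Bool) : pt s u = F s k u (pt s (sh k u)) := by
  induction k with
  | zero => congr 1; funext i; simp [sh]
  | succ k ih => rw [F_succ, ih, pt_eq hs (sh k u), sh_sh]; rfl

lemma pt_L {s : ℝ} (hs : 1 < s) : pt s (fun _ => false) = 0 := by
  have := pt_eq hs fun _ => false
  change _ = pt s (fun _ => false) / s at this
  rw [eq_div_iff (by linarith)] at this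
  have h : pt s (fun _ => false) * (s - 1) = 0 := by linarith
  exact (mul_eq_zero.1 h).resolve_right (by linarith)

lemma sides {s y y' : ℝ} (hs : 1 < s) (h : y < s / 2) (h' : y' < s / 2) :
    g s false y < g s true y' := by
  have h1 : y / s < 1 / 2 := by rw [div_lt_iff₀ (by linarith)]; linarith
  have h2 : y' / s < 1 / 2 := by rw [div_lt_iff₀ (by linarith)]; linarith
  simp only [g, Bool.false_eq_true, if_false, if_true]
  linarith

lemma mono {s : ℝ} (hs : 1 < s) (y y' : ℝ) :
    (g s false y < g s false y' ↔ y < y') ∧ (g s true y < g s true y' ↔ y' < y) := by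
  simp [g, div_lt_div_iff_of_pos_right (show 0 < s by linarith)]

lemma cmp {s : ℝ} (hs : 1 < s) (u v : ℕ → Bool) (hu : ∀ k, pt s (sh k u) < s / 2)
    (hv : ∀ k, pt s (sh k v) < s / 2) (h : pt 2 u < pt 2 v) : pt s u < pt s v := by
  have hne : ∃ d, u d ≠ v d := by
    by_contra hc
    push Not at hc
    rw [funext hc] at h
    exact lt_irrefl _ h
  obtain ⟨d, hd⟩ := hne
  induction d generalizing u v with
  | zero =>
    rw [pt_eq hs u, pt_eq hs v]
    rw [pt_eq one_lt_two u, pt_eq one_lt_two v] at h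
    have h1 := (pt_mem one_lt_two (sh 1 u)).2
    have h2 := (pt_mem one_lt_two (sh 1 v)).2
    cases hu0 : u 0 <;> cases hv0 : v 0 <;> simp only [hu0, hv0, ne_eq, not_true] at hd h
    · exact sides hs (hu 1) (hv 1)
    · simp only [g, Bool.false_eq_true, if_false, if_true] at h
      linarith
  | succ d ih =>
    rw [pt_eq hs u, pt_eq hs v]
    have h' := h
    rw [pt_eq one_lt_two u, pt_eq one_lt_two v] at h
    have h1 := (pt_mem one_lt_two (sh 1 u)).2
    have h2 := (pt_mem one_lt_two (sh 1 v)).2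
    have hu' : ∀ k, pt s (sh k (sh 1 u)) < s / 2 := fun k => by rw [sh_sh]; exact hu _
    have hv' : ∀ k, pt s (sh k (sh 1 v)) < s / 2 := fun k => by rw [sh_sh]; exact hv _
    have hd' : sh 1 u d ≠ sh 1 v d := by simpa [sh, add_comm] using hd
    cases hu0 : u 0 <;> cases hv0 : v 0 <;> simp only [hu0, hv0] at h
    · exact (mono hs _ _).1.2 (ih _ _ hu' hv' ((mono one_lt_two _ _).1.1 h) hd')
    · exact sides hs (hu 1) (hv 1)
    · simp only [g, Bool.false_eq_true, if_false, if_true] at h
      linarith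
    · exact (mono hs _ _).2.2 (ih _ _ hv' hu' ((mono one_lt_two _ _).2.1 h) hd'.symm)

/-- One excursion `R L^j R` cannot produce a maximum above `s / 2`. -/
lemma exc {s M z : ℝ} {N j : ℕ} (hs : 1 < s) (H : s ^ N * (1 - s / 2) < 1 / 2) (hj : j + 1 ≤ N)
    (hM : s / 2 ≤ M) (M1 : M ≤ 1) (hz : z ≤ M) (e : M = 1 - (1 - z / s) / s ^ j / s) : False := by
  have s0 : 0 < s := by linarith
  have h1 : s ^ (j + 1) ≤ s ^ N := pow_le_pow_right₀ hs.le hj
  have h2 : 1 ≤ s ^ N := one_le_pow₀ hs.le
  have h3 : s ^ (j + 1) * (1 - M) = 1 - z / s := by rw [e, pow_succ]; field_simp; ring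
  have h4 : z / s ≤ M / s := div_le_div_of_nonneg_right hz s0.le
  have h5 : M / s ≤ 1 / 2 + (M - s / 2) := by
    rw [div_le_iff₀ s0]; nlinarith
  nlinarith [mul_le_mul_of_nonneg_right h1 (sub_nonneg.2 M1),
    mul_le_mul_of_nonneg_right h2 (sub_nonneg.2 hM)]

lemma per {s : ℝ} {N P : ℕ} (hs : 1 < s) (H : s ^ N * (1 - s / 2) < 1 / 2) (hP : 0 < P)
    (hPN : P ≤ N + 1) (u : ℕ → Bool) (hu : ∀ i, u (i + P) = u i) (k : ℕ) :
    pt s (sh k u) < s / 2 := by
  classical
  have s0 : 0 < s := by linarith
  have hp : Function.Periodic (fun k => pt s (sh k u)) P := fun k => by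
    have : sh (k + P) u = sh k u := funext fun i => by
      simp only [sh]; rw [add_right_comm, hu]
    simp only [this]
  obtain ⟨m, -, hm⟩ := Finset.exists_max_image (Finset.range P) (fun k => pt s (sh k u))
    ⟨0, by simpa using hP⟩
  have hm' : ∀ k, pt s (sh k u) ≤ pt s (sh m u) := fun k => by
    have := hp.map_mod_nat k
    rw [← this]
    exact hm _ (Finset.mem_range.2 (Nat.mod_lt _ hP))
  refine (hm' k).trans_lt ?_
  by_contra hM
  push Not at hM
  have e0 := pt_eq hs (sh m u)
  rw [sh_sh] at e0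
  have um : u m = true := by
    by_contra hc
    have : sh m u 0 = false := by simpa [sh] using hc
    rw [this] at e0
    simp only [g, Bool.false_eq_true, if_false] at e0
    have h1 := hm' (m + 1)
    rw [eq_div_iff s0.ne'] at e0
    nlinarith
  have : sh m u 0 = true := um
  rw [this] at e0
  simp only [g, if_true] at e0
  have hex : ∃ j, u (m + 1 + j) = true := ⟨P - 1, by
    rw [show m + 1 + (P - 1) = m + P by omega, hu, um]⟩
  have j1 := Nat.find_spec hex
  have j2 : Nat.find hex ≤ P - 1 := Nat.find_min' hex (by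
    rw [show m + 1 + (P - 1) = m + P by omega, hu, um])
  have e1 := pt_F hs (Nat.find hex) (sh (m + 1) u)
  rw [F_L s _ fun i hi => by simpa [sh] using Nat.find_min hex hi, sh_sh] at e1
  generalize Nat.find hex = j at *
  rcases le_or_gt (j + 1) N with hj | hj
  · have e2 := pt_eq hs (sh (m + 1 + j) u)
    rw [show sh (m + 1 + j) u 0 = true from j1, sh_sh] at e2
    simp only [g, if_true] at e2
    rw [e1, e2] at e0
    exact exc hs H hj hM (pt_mem hs _).2 (hm' _) e0
  · have e2 := hp m
    simp only at e2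
    rw [show m + 1 + j = m + P by omega, e2, show j = N by omega] at e1
    rw [e1] at e0
    generalize pt s (sh m u) = M at *
    have h1 : s * (s ^ N * (1 - M)) = M := by
      have : 1 - M = M / s ^ N / s := by linarith
      rw [this]; field_simp
    have h2 : s ^ N * (1 - M) ≤ s ^ N * (1 - s / 2) :=
      mul_le_mul_of_nonneg_left (by linarith) (by positivity)
    nlinarith

/-- Periodic continuation of the block `w k, ..., w (N - 1)`. -/
def cyc (w : ℕ → Bool) (N k : ℕ) : ℕ → Bool := fun i => w (k + i % (N - k))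

lemma cyc_per (w : ℕ → Bool) (N k i : ℕ) : cyc w N k (i + (N - k)) = cyc w N k i := by
  simp [cyc]

lemma cyc_fix {s : ℝ} (hs : 1 < s) (w : ℕ → Bool) {N k m : ℕ} (h1 : k ≤ m) (h2 : m ≤ N) :
    pt s (sh (m - k) (cyc w N k)) = F s (N - m) (sh m w) (pt s (cyc w N k)) := by
  rw [pt_F hs (N - m), sh_sh, show m - k + (N - m) = N - k by omega]
  have : sh (N - k) (cyc w N k) = cyc w N k := funext fun i => by
    simp only [sh]; rw [add_comm, cyc_per]
  rw [this]
  refine F_congr s _ (fun i hi => ?_) _
  simp only [sh, cyc]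
  rw [Nat.mod_eq_of_lt (by omega)]
  congr 1
  omega

lemma fix_lt {s : ℝ} (hs : 1 < s) (w : ℕ → Bool) {N k : ℕ} (hk : k < N) (y : ℝ) :
    (F s (N - k) (sh k w) y < y ↔ pt s (cyc w N k) < y) ∧
      (y < F s (N - k) (sh k w) y ↔ y < pt s (cyc w N k)) := by
  have e := cyc_fix hs w (le_refl k) hk.le
  rw [Nat.sub_self, show sh 0 (cyc w N k) = cyc w N k from funext fun i => by simp [sh]] at e
  have d := F_dist hs (N - k) (sh k w) y (pt s (cyc w N k))
  rw [← e] at d
  have r0 : 0 ≤ (1 / s) ^ (N - k) := by positivity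
  have r1 : (1 / s) ^ (N - k) < 1 :=
    pow_lt_one₀ (by positivity) ((div_lt_one (by linarith)).2 hs) (by omega)
  generalize (1 / s) ^ (N - k) = r at *
  generalize F s (N - k) (sh k w) y = a at *
  generalize pt s (cyc w N k) = p at *
  rcases lt_trichotomy y p with h | h | h
  · rw [abs_of_neg (sub_neg.2 h)] at d
    have := neg_abs_le (a - p)
    have : y < a := by nlinarith
    exact ⟨iff_of_false (by linarith) (by linarith), iff_of_true this h⟩
  · rw [h, sub_self, abs_zero, zero_mul, abs_eq_zero, sub_eq_zero] at d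
    simp [h, d]
  · rw [abs_of_pos (sub_pos.2 h)] at d
    have := le_abs_self (a - p)
    have : a < y := by nlinarith
    exact ⟨iff_of_true this h, iff_of_false (by linarith) (by linarith)⟩

lemma tent_g {s y : ℝ} (hs : 1 < s) (b : Bool) (h : y < s / 2) : tent (s / 2) (g s b y) = y := by
  have h1 : y / s < 1 / 2 := by rw [div_lt_iff₀ (by linarith)]; linarith
  have s0 : s ≠ 0 := by linarith
  cases b
  · simp only [g, tent, Bool.false_eq_true, if_false]
    rw [min_eq_left (by linarith)]; field_simp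
  · simp only [g, tent, if_true]
    rw [min_eq_right (by linarith)]; field_simp; ring

lemma transfer {s : ℝ} {n : ℕ} (hs : 1 < s) (hs2 : s < 2) (H : s ^ n * (1 - s / 2) < 1 / 2)
    {x : ℝ} (hx : x ∈ Set.Icc (0 : ℝ) 1) : ∃ x' ∈ Set.Icc (0 : ℝ) 1, ∀ i ≤ n + 1, ∀ j ≤ n + 1,
      (tent 1)^[i] x < (tent 1)^[j] x → (tent (s / 2))^[i] x' < (tent (s / 2))^[j] x' := by
  classical
  have s0 : 0 < s := by linarith
  obtain ⟨N, hN⟩ : ∃ N, N = n + 1 := ⟨_, rfl⟩
  rw [← hN]
  obtain ⟨a, ha⟩ : ∃ a : ℕ → ℝ, a = fun i => (tent 1)^[i] x := ⟨_, rfl⟩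
  have as : ∀ i, a (i + 1) = tent 1 (a i) := fun i => by
    simp only [ha, Function.iterate_succ_apply']
  obtain ⟨w, hw⟩ : ∃ w : ℕ → Bool, w = fun i => decide (1 / 2 < a i) := ⟨_, rfl⟩
  have wt : ∀ i, w i = true ↔ 1 / 2 < a i := fun i => by simp only [hw, decide_eq_true_eq]
  have ag : ∀ i, a i = g 2 (w i) (a (i + 1)) := fun i => by
    rw [as, tent]
    cases h : w i
    · have : ¬ 1 / 2 < a i := by rw [← wt, h]; simp
      simp only [g, Bool.false_eq_true, if_false]
      rw [min_eq_left (by linarith)]; ring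
    · have := (wt i).1 h
      simp only [g, if_true]
      rw [min_eq_right (by linarith)]; ring
  have am : ∀ i, a i ∈ Set.Icc (0 : ℝ) 1 := fun i => by
    induction i with
    | zero => simpa [ha] using hx
    | succ i ih =>
      rw [as, tent]
      have h1 := min_le_left (a i) (1 - a i)
      have h2 := min_le_right (a i) (1 - a i)
      have h3 : 0 ≤ min (a i) (1 - a i) := le_min ih.1 (by linarith [ih.2])
      constructor <;> linarith
  have aF : ∀ d k, a k = F 2 d (sh k w) (a (k + d)) := fun d => by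
    induction d with
    | zero => exact fun k => rfl
    | succ d ih =>
      intro k
      rw [F, sh_sh, show k + (d + 1) = k + 1 + d by omega, ← ih, ag k]; rfl
  have aF' : ∀ k ≤ N, a k = F 2 (N - k) (sh k w) (a N) := fun k hk => by
    rw [aF (N - k) k, Nat.add_sub_cancel' hk]
  have hper : ∀ k < N, ∀ i, pt s (sh i (cyc w N k)) < s / 2 := fun k hk =>
    per hs H (P := N - k) (by omega) (by omega) _ (cyc_per w N k)
  have hper0 : ∀ k < N, pt s (cyc w N k) < s / 2 := fun k hk => by
    have := hper k hk 0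
    rwa [show sh 0 (cyc w N k) = cyc w N k from funext fun i => by simp [sh]] at this
  let Tl : ℕ → Prop := fun m => 1 ≤ m ∧ w m = true ∧ ∀ i, m < i → i < N → w i = false
  have tail : ∀ m < N, Tl m → ∀ y, F s (N - m) (sh m w) y = 1 - y / s ^ (N - m) := by
    intro m hm ht y
    obtain ⟨d, hd⟩ : ∃ d, N - m = d + 1 := ⟨N - m - 1, by omega⟩
    rw [hd, F, sh_sh, F_L s d (u := sh (m + 1) w) fun i hi =>
      ht.2.2 (m + 1 + i) (by omega) (by omega),
      show sh m w 0 = true from ht.2.1]
    simp [g, pow_succ, div_div]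
  obtain ⟨y, yl, yu⟩ := Finset.exists_between
    (s := insert 0 (((Finset.range N).filter fun k => pt 2 (cyc w N k) < a N).image
      (fun k => pt s (cyc w N k)) ∪ ((Finset.range N).filter Tl).image
        fun m => s ^ (N - m) * (1 - s / 2)))
    (t := insert (s / 2) (((Finset.range N).filter fun k => a N < pt 2 (cyc w N k)).image
      fun k => pt s (cyc w N k))) (by simp) (by simp) (by
    simp only [Finset.mem_insert, Finset.mem_union, Finset.mem_image, Finset.mem_filter,
      Finset.mem_range]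
    rintro _ (rfl | ⟨k, ⟨hk, h⟩, rfl⟩ | ⟨m, ⟨hm, ht⟩, rfl⟩) _ (rfl | ⟨b, ⟨hb, h'⟩, rfl⟩)
    · linarith
    · rw [← pt_L hs]
      refine cmp hs _ _ (fun k => ?_) (hper b hb) (by rw [pt_L one_lt_two]; linarith [(am N).1])
      rw [show sh k (fun _ => false) = fun _ => false from rfl, pt_L hs]; linarith
    · exact hper0 k hk
    · exact cmp hs _ _ (hper k hk) (hper b hb) (h.trans h')
    · have : s ^ (N - m) ≤ s ^ n := pow_le_pow_right₀ hs.le (by have := ht.1; omega)
      nlinarith
    · rcases le_or_gt b m with hbm | hbm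
      · have h1 := hper b hb (m - b)
        rw [cyc_fix hs w hbm hm.le, tail m hm ht] at h1
        rw [mul_comm, ← lt_div_iff₀ (by positivity)]
        linarith
      · have : cyc w N b = fun _ => false := funext fun i => by
          have := Nat.mod_lt i (show 0 < N - b by omega)
          exact ht.2.2 _ (by omega) (by omega)
        rw [this, pt_L one_lt_two] at h'
        linarith [(am N).1])
  simp only [Finset.mem_insert, Finset.mem_union, Finset.mem_image, Finset.mem_filter,
    Finset.mem_range, forall_eq_or_imp] at yl yu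
  have ym : y ∈ Set.Icc (0 : ℝ) 1 := ⟨yl.1.le, by linarith [yu.1]⟩
  obtain ⟨b, hb⟩ : ∃ b : ℕ → ℝ, b = fun k => F s (N - k) (sh k w) y := ⟨_, rfl⟩
  have bN : b N = y := by simp [hb, F]
  have bm : ∀ k, b k ∈ Set.Icc (0 : ℝ) 1 := fun k => by rw [hb]; exact F_mem hs _ _ ym
  have bg : ∀ k < N, b k = g s (w k) (b (k + 1)) := fun k hk => by
    simp only [hb]
    rw [show N - k = N - (k + 1) + 1 by omega, F, sh_sh]; rfl
  have bL : ∀ j k, k + j ≤ N → (∀ i < j, w (k + i) = false) → b k = b (k + j) / s ^ j := by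
    intro j
    induction j with
    | zero => simp
    | succ j ih =>
      intro k hk h
      rw [ih k (by omega) fun i hi => h i (by omega), bg (k + j) (by omega), h j (by omega)]
      simp [g, pow_succ', div_div, add_assoc]
  have valid : ∀ k, 1 ≤ k → k ≤ N → b k < s / 2 := by
    obtain ⟨m, hm, hmax⟩ := Finset.exists_max_image (Finset.Icc 1 N) b ⟨1, by simp; omega⟩
    simp only [Finset.mem_Icc, and_imp] at hm hmax
    refine fun k h1 h2 => (hmax k h1 h2).trans_lt ?_
    by_contra hM
    push Not at hM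
    have mN : m < N := by
      refine hm.2.lt_of_ne ?_
      rintro rfl
      linarith [yu.1]
    have e0 := bg m mN
    have wm : w m = true := by
      by_contra hc
      rw [Bool.not_eq_true] at hc
      rw [hc] at e0
      simp only [g, Bool.false_eq_true, if_false] at e0
      have := hmax (m + 1) (by omega) mN
      rw [eq_div_iff s0.ne'] at e0
      nlinarith
    by_cases hex : ∃ j, m + 1 + j < N ∧ w (m + 1 + j) = true
    · have j1 := Nat.find_spec hex
      have e1 := bL (Nat.find hex) (m + 1) j1.1.le fun i hi => by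
        have := Nat.find_min hex hi
        simpa [show m + 1 + i < N by omega] using this
      generalize Nat.find hex = j at *
      rw [wm, e1, bg _ j1.1, j1.2] at e0
      simp only [g, if_true] at e0
      exact exc hs H (by omega) hM (bm m).2 (hmax _ (by omega) (by omega)) e0
    · have ht : Tl m := ⟨hm.1, wm, fun i h1 h2 => by
        by_contra hc
        exact hex ⟨i - (m + 1), by omega, by
          rw [show m + 1 + (i - (m + 1)) = i by omega]; simpa using hc⟩⟩
      have h1 := yl.2 _ (Or.inr ⟨m, ⟨mN, ht⟩, rfl⟩)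
      have h2 : b m = 1 - y / s ^ (N - m) := by rw [hb]; exact tail m mN ht y
      rw [mul_comm, ← lt_div_iff₀ (by positivity)] at h1
      linarith
  have orb : ∀ k ≤ N, (tent (s / 2))^[k] (b 0) = b k := fun k => by
    induction k with
    | zero => exact fun _ => rfl
    | succ k ih =>
      intro hk
      rw [Function.iterate_succ_apply', ih (by omega), bg k hk,
        tent_g hs _ (valid _ (by omega) hk)]
  have ord : ∀ d i j, i ≤ N → j ≤ N → N ≤ i + d → a i < a j → b i < b j := by
    have top : ∀ j ≤ N, (a N < a j → b N < b j) ∧ (a j < a N → b j < b N) := by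
      intro j hj
      rcases hj.eq_or_lt with rfl | hj
      · simp
      have f2 := fix_lt one_lt_two w hj (a N)
      have fs := fix_lt hs w hj y
      rw [← aF' j hj.le] at f2
      rw [bN, hb]
      exact ⟨fun h => fs.2.2 (yu.2 _ ⟨j, ⟨hj, f2.2.1 h⟩, rfl⟩),
        fun h => fs.1.2 (yl.2 _ (Or.inl ⟨j, ⟨hj, f2.1.1 h⟩, rfl⟩))⟩
    have : ∀ d i j, i ≤ N → j ≤ N → N ≤ i + d →
        (a i < a j → b i < b j) ∧ (a j < a i → b j < b i) := by
      intro d
      induction d with
      | zero =>
        intro i j hi hj h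
        obtain rfl : i = N := by omega
        exact top j hj
      | succ d ih =>
        intro i j hi hj h
        rcases hi.eq_or_lt with rfl | hi
        · exact top j hj
        rcases hj.eq_or_lt with rfl | hj
        · exact (top i hi.le).symm
        have := ih (i + 1) (j + 1) hi hj (by omega)
        have vi := valid (i + 1) (by omega) hi
        have vj := valid (j + 1) (by omega) hj
        have wi := wt i
        have wj := wt j
        rw [bg i hi, bg j hj]
        cases h1 : w i <;> cases h2 : w j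
        · rw [ag i, ag j, h1, h2]
          simpa only [(mono one_lt_two _ _).1, (mono hs _ _).1] using this
        · simp only [h1, h2, Bool.false_eq_true, false_iff, true_iff] at wi wj
          exact ⟨fun _ => sides hs vi vj, fun h => by linarith⟩
        · simp only [h1, h2, Bool.false_eq_true, false_iff, true_iff] at wi wj
          exact ⟨fun h => by linarith, fun _ => sides hs vj vi⟩
        · rw [ag i, ag j, h1, h2]
          simpa only [(mono one_lt_two _ _).2, (mono hs _ _).2] using this.symm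
    exact fun d i j hi hj h => (this d i j hi hj h).1
  refine ⟨b 0, bm 0, fun i hi j hj h => ?_⟩
  rw [orb i hi, orb j hj]
  exact ord N i j hi hj (by omega) (by simpa only [ha] using h)

lemma need {s : ℝ} {n : ℕ} (hs : 1 < s) (h : Allow (tent (s / 2)) (sigma (n + 2))) :
    s ^ n * (1 - s / 2) < 1 / 2 := by
  rcases n with _ | n
  · simp; linarith
  obtain ⟨x, hx, h⟩ := h
  obtain ⟨a, ha⟩ : ∃ a : ℕ → ℝ, a = fun i => (tent (s / 2))^[i] x := ⟨_, rfl⟩
  have as : ∀ i, a (i + 1) = s * min (a i) (1 - a i) := fun i => by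
    simp only [ha, Function.iterate_succ_apply', tent]; ring
  have h01 : a 0 < a 1 := by
    simpa [ha] using (h ⟨0, by omega⟩ ⟨1, by omega⟩).1 (by simp [sigma])
  have hk : ∀ k, 2 ≤ k → k ≤ n + 2 → a k < a 0 := fun k h1 h2 => by
    have := (h ⟨k, by omega⟩ ⟨0, by omega⟩).1 (by
      simp only [sigma, if_true]
      rw [if_neg (by omega), if_neg (by omega)]; omega)
    simpa [ha] using this
  have a0 : 0 ≤ a 0 := by simpa [ha] using hx.1
  have h2 := hk 2 le_rfl (by omega)
  have a1 : 1 / 2 < a 1 := by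
    by_contra hc
    rw [as 1, min_eq_left (by linarith)] at h2
    nlinarith
  have e : ∀ k, k ≤ n → a (k + 2) = s ^ (k + 1) * (1 - a 1) := fun k => by
    induction k with
    | zero => intro _; rw [as 1, min_eq_right (by linarith)]; ring
    | succ k ih =>
      intro hkn
      have l : a (k + 2) ≤ 1 / 2 := by
        by_contra hc
        have h3 := hk (k + 2) (by omega) (by omega)
        have h4 := hk (k + 2 + 1) (by omega) (by omega)
        have h5 := as 0
        rw [as, min_eq_right (by linarith)] at h4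
        rw [min_eq_right (by linarith)] at h5
        nlinarith
      rw [show k + 1 + 2 = k + 2 + 1 by omega, as, min_eq_left (by linarith), ih (by omega)]
      ring
  have h3 := hk (n + 2) (by omega) le_rfl
  rw [e n le_rfl] at h3
  have p1 : 1 ≤ s ^ (n + 1) := one_le_pow₀ hs.le
  have h5 := as 0
  generalize s ^ (n + 1) = t at *
  rcases le_or_gt (a 0) (1 / 2) with l | l
  · rw [min_eq_left (by linarith)] at h5
    have : a 1 ≤ s / 2 := by rw [h5]; nlinarith
    nlinarith
  · rw [min_eq_right (by linarith)] at h5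
    rw [h5] at h3
    have : 1 ≤ t * s := by nlinarith
    nlinarith

theorem result (μ : ℝ) (h1 : 1 / 2 < μ) (h2 : μ < 1) (n : ℕ) (π : Equiv.Perm (Fin n))
    (ha : Allow (tent 1) fun i => (π i : ℕ) + 1) (hf : ¬ Allow (tent μ) fun i => (π i : ℕ) + 1) :
    2 ≤ n ∧ ¬ Allow (tent μ) (sigma n) := by
  have n2 : 2 ≤ n := by
    by_contra hc
    refine hf ⟨0, by simp, fun i j => ?_⟩
    obtain rfl : i = j := by ext; omega
    simp
  refine ⟨n2, fun hσ => hf ?_⟩
  obtain ⟨m, rfl⟩ : ∃ m, n = m + 2 := ⟨n - 2, by omega⟩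
  have e : μ = 2 * μ / 2 := by ring
  rw [e] at hσ ⊢
  obtain ⟨x, hx, h⟩ := ha
  obtain ⟨x', hx', h'⟩ := transfer (by linarith) (by linarith) (need (by linarith) hσ) hx
  have key : ∀ i j : Fin (m + 2), (π i : ℕ) + 1 < (π j : ℕ) + 1 →
      (tent (2 * μ / 2))^[i] x' < (tent (2 * μ / 2))^[j] x' := fun i j hij =>
    h' i (by omega) j (by omega) ((h i j).1 hij)
  refine ⟨x', hx', fun i j => ⟨key i j, fun hlt => ?_⟩⟩
  rcases lt_trichotomy ((π i : ℕ) + 1) ((π j : ℕ) + 1) with l | l | l
  · exact l
  · obtain rfl : i = j := π.injective (Fin.ext (by omega))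
    exact absurd hlt (lt_irrefl _)
  · exact absurd hlt (key j i l).not_gt

end Pool.Agent.Results.MP_25bc1d_an.Shortest
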